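import Pool.Agent.helper81.CX.Spec2
import Pool.Agent.helper25.CL.MVN
import Pool.Agent.helper81.CW.Lower

set_option autoImplicit false

open MeasureTheory Set Filter Topology
open scoped ENNReal
open Pool.Agent.helper81.CW

noncomputable section

namespace Pool.Agent.CX

theorem ML2 (hVO2 : VO2_stmt) : ML2_stmt := by
  unfold ML2_stmt
  filter_upwards [hVO2] with n hn
  rw [Pool.Agent.CL.MVN J3 n]
  refine le_iInf ?_
  rintro ⟨C, hC⟩
  have h1 := hn C hC
  have h0 : volume (Metric.closedBall (0 : E n) (1 / 2)) ≠ 0 := (Metric.measure_closedBall_pos volume (0 : E n) (by norm_num)).ne'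
  have ht : volume (Metric.closedBall (0 : E n) (1 / 2)) ≠ ∞ := measure_closedBall_lt_top.ne
  rw [ENNReal.le_div_iff_mul_le (Or.inl h0) (Or.inl ht)]
  exact h1

end Pool.Agent.CX
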