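import Pool.Agent.helper81.CX.Spec2

set_option autoImplicit false

open MeasureTheory Set Filter Topology
open scoped ENNReal
open Pool.Agent.helper81.CW

noncomputable section

namespace Pool.Agent.CX

theorem STB (hG1 : G1_stmt) (hCRB : CRB_stmt) (hEVQ : EVQ_stmt) (hSTA : STA_stmt) : STB_stmt := by
  intro a b mu p t c ha ha1 hb hmu hmu1 hp ht ht1 hc hc1 h2b hq hR ε hε
  have hη : 0 < min (R0 a mu p t c) ε := lt_min hR hε
  have hc2 : c ^ 2 ≤ 1 := by nlinarith
  have hbmu : 2 * b ≤ mu := by nlinarith
  filter_upwards [hSTA _ hη] with n hn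
  intro C M hC hC2 hM hX
  obtain ⟨hprob, -⟩ := hG1 n
  obtain ⟨s, hs⟩ : ∃ s, s = ∫ z, M z ∂(gm n) := ⟨_, rfl⟩
  have hMint : Integrable M (gm n) := by
    apply Integrable.of_bound hM.meas.aestronglyMeasurable (1 / 2)
    exact Eventually.of_forall fun x => hM.bdd x
  have hsn : ‖s‖ ≤ 1 / 2 := by
    rw [hs]
    have h1 := norm_integral_le_of_norm_le_const (μ := gm n) (Eventually.of_forall fun x => hM.bdd x)
    rw [probReal_univ, mul_one] at h1
    exact h1
  have hNint : Integrable (fun x => M x - s) (gm n) := hMint.sub (integrable_const s)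
  -- the map N
  have hN : EV (fun x => M x - s) := by
    refine ⟨⟨hM.meas.sub_const s, ?_⟩, ?_, ?_, ?_⟩
    · intro x
      have h1 := norm_sub_le (M x) s
      have h2 := hM.bdd x
      linarith
    · intro x
      simp only [hM.even]
    · intro x r hr
      simp only [hM.hom x r hr]
    · rw [integral_sub hMint (integrable_const s), integral_const, probReal_univ, one_smul, ← hs, sub_self]
  have hWm : Measurable fun x => (mu - b) • s + b • M x := (hM.meas.const_smul b).const_add ((mu - b) • s)
  have hres := hn C M (fun x => (mu - b) • s + b • M x) a mu p t c 0 hC hC2 hM hX ha ha1 hmu hmu1 hp ht ht1 hc hc1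
    ⟨hWm, ?_⟩ ?_ ?_ ?_ ?_ ?_ ?_
  · rw [← hs]
    refine le_trans hres (ENNReal.ofReal_le_ofReal (min_le_right _ _))
  · intro x
    have h1 := norm_add_le ((mu - b) • s) (b • M x)
    rw [norm_smul, norm_smul, Real.norm_of_nonneg (by linarith), Real.norm_of_nonneg hb] at h1
    have h2 := hM.bdd x
    nlinarith
  · intro x
    simp only [hM.even]
  · intro x r hr
    simp only [hM.hom x r hr]
  · have hbM : Integrable (fun x => b • M x) (gm n) := hMint.smul b
    rw [integral_add (integrable_const _) hbM, integral_const, probReal_univ, one_smul, integral_smul, ← hs, ← add_smul]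
    ring_nf
  · intro x y hx hy
    have e : ((mu - b) • s + b • M x) - ((mu - b) • s + b • M y) = b • (M x - M y) := by
      rw [smul_sub]
      abel
    beta_reduce
    rw [e, norm_smul, Real.norm_of_nonneg hb]
    have h1 := hM.lip x y hx hy
    have h2 := norm_nonneg (un x - un y)
    have h3 := norm_nonneg (M x - M y)
    nlinarith
  · intro f hf
    have h1 := hEVQ n f (fun x => M x - s) b mu p t c hf hN hb hmu hp ht ht1 hc hc1 h2b hq
    have h2 := (hCRB n (fun x => M x - s) (fun x => M x - s) 1 hN.bm hN.bm (by norm_num)).2.2.2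
    have hfint : Integrable f (gm n) := by
      apply Integrable.of_bound hf.bm.1.aestronglyMeasurable 2
      exact Eventually.of_forall fun x => hf.bm.2 x
    have hNf : Integrable (fun x => (inner ℝ (M x - s) (f x) : ℝ)) (gm n) := by
      apply Integrable.of_bound ((hM.meas.sub_const s).inner hf.bm.1).aestronglyMeasurable (2 * 2)
      refine Eventually.of_forall fun x => ?_
      exact (norm_inner_le_norm _ _).trans (mul_le_mul (hN.bm.2 x) (hf.bm.2 x) (norm_nonneg _) (by norm_num))
    have hsf : ∫ x, (inner ℝ s (f x) : ℝ) ∂(gm n) = 0 := by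
      rw [integral_inner hfint, hf.mean, inner_zero_right]
    have h3 : ∫ x, (inner ℝ ((mu - b) • s + b • M x) (f x) : ℝ) ∂(gm n) = b * ∫ x, (inner ℝ (M x - s) (f x) : ℝ) ∂(gm n) := by
      have e : (fun x => (inner ℝ ((mu - b) • s + b • M x) (f x) : ℝ)) =
          fun x => b * (inner ℝ (M x - s) (f x) : ℝ) + mu * (inner ℝ s (f x) : ℝ) := by
        funext x
        rw [inner_add_left, inner_smul_left, inner_smul_left, inner_sub_left]
        simp only [conj_trivial]
        ring
      rw [e, integral_add (hNf.const_mul b) ((hfint.const_inner s).const_mul mu), integral_const_mul, integral_const_mul, hsf]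
      ring
    have h4 : ∫ x, ‖M x - s‖ ^ 2 ∂(gm n) = ∫ x, (inner ℝ (M x - s) (M x - s) : ℝ) ∂(gm n) := by
      apply integral_congr_ae
      exact Eventually.of_forall fun x => (real_inner_self_eq_norm_sq _).symm
    have h5 : ∫ x, ‖(mu - b) • s + b • M x - mu • s‖ ^ 2 ∂(gm n) = b ^ 2 * ∫ x, ‖M x - s‖ ^ 2 ∂(gm n) := by
      rw [← integral_const_mul]
      apply integral_congr_ae
      refine Eventually.of_forall fun x => ?_
      have e : (mu - b) • s + b • M x - mu • s = b • (M x - s) := by
        rw [sub_smul, smul_sub]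
        abel
      beta_reduce
      rw [e, norm_smul, mul_pow, Real.norm_eq_abs, sq_abs]
    rw [← hs, h3, h5, h4, ← h2]
    linarith
  · rw [add_zero]
    exact min_le_left _ _

end Pool.Agent.CX
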