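import Pool.Agent.helper81.CX.Spec2
import Pool.Agent.helper81.CW.SLOWS

set_option autoImplicit false

open MeasureTheory Set Filter Topology
open scoped ENNReal
open Pool.Agent.helper81.CW

noncomputable section

namespace Pool.Agent.CX

theorem SG2 (hG6 : G6_stmt) (hJ2 : J2_stmt) (hJ3 : J3_stmt) (hIN2 : IN2_stmt) : SG2_stmt := by
  unfold SG2_stmt
  have h1 : ∀ᶠ n : ℕ in atTop, (0.3904 / 0.39043 : ℝ) ^ n ≤ 1 / 2 := by
    have ht : Tendsto (fun n : ℕ => (0.3904 / 0.39043 : ℝ) ^ n) atTop (𝓝 0) :=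
      tendsto_pow_atTop_nhds_zero_of_lt_one (by norm_num) (by norm_num)
    exact (ht.eventually (gt_mem_nhds (show (0 : ℝ) < 1 / 2 by norm_num))).mono (fun _ h => le_of_lt h)
  filter_upwards [hIN2, h1, eventually_gt_atTop 0] with n hn h2 hn0
  have hne : Nonempty (Fin n) := ⟨⟨0, hn0⟩⟩
  have h3 := SLOWS_gen hJ2 hJ3 hG6 hn0 (m := 0.3904) (by norm_num) (by
    intro C hC
    obtain ⟨z, hz⟩ := hn C hC
    refine ⟨z, le_trans ?_ hz⟩
    rw [EuclideanSpace.volume_closedBall, Fintype.card_fin]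
    have hkap : ENNReal.ofReal (Real.sqrt Real.pi ^ n / Real.Gamma ((n : ℝ) / 2 + 1)) =
        ENNReal.ofReal (kap n) := rfl
    rw [hkap, ENNReal.ofReal_one, one_pow, one_mul, ← ENNReal.ofReal_mul (by positivity)]
    apply ENNReal.ofReal_le_ofReal
    have hk : 0 ≤ kap n := by
      unfold kap
      have : 0 < Real.Gamma ((n : ℝ) / 2 + 1) := Real.Gamma_pos_of_pos (by positivity)
      positivity
    rw [div_pow, div_le_iff₀ (by positivity)] at h2
    nlinarith)
  have e : (2 * 0.3904 : ℝ) = 0.7808 := by norm_num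
  rw [e] at h3
  exact h3

end Pool.Agent.CX
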